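import Mathlib

/-!
# Digit sums of multiples (MP_d7e141_nt): definitions and helper lemmas
-/

namespace H13.DigitFrob

/-- The digit sum `s_b(N)` in base `b`. -/
def s (b N : ℕ) : ℕ := (Nat.digits b N).sum

/-- `Out(s_b,n)`: the set of digit sums of positive multiples of `n`. -/
def Out (b n : ℕ) : Set ℕ := {u | ∃ N : ℕ, 0 < N ∧ n ∣ N ∧ s b N = u}

/-- The pairs `(b,n)` considered in the problem. -/
def Admissible (b n : ℕ) : Prop :=
  2 ≤ b ∧ 1 ≤ n ∧ Nat.Coprime (b - 1) n ∧ ∃ p : ℕ, p.Prime ∧ p ∣ n ∧ ¬ p ∣ b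

/-- `F(b,n)`, the largest positive integer outside `Out(s_b,n)`. -/
noncomputable def F (b n : ℕ) : ℕ := sSup {u : ℕ | 0 < u ∧ u ∉ Out b n}

section digits

variable {b : ℕ}

theorem s_zero (b : ℕ) : s b 0 = 0 := by simp [s]

theorem s_rec (hb : 2 ≤ b) (N : ℕ) : s b N = N % b + s b (N / b) := by
  unfold s
  rcases Nat.eq_zero_or_pos N with h | h
  · subst h; simp
  · rw [Nat.digits_def' (by omega) h]; simp

theorem s_add_mul (hb : 2 ≤ b) {x : ℕ} (hx : x < b) (y : ℕ) :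
    s b (x + b * y) = x + s b y := by
  rw [s_rec hb, Nat.add_mul_mod_self_left, Nat.mod_eq_of_lt hx,
    Nat.add_mul_div_left _ _ (by omega), Nat.div_eq_of_lt hx, Nat.zero_add]

theorem s_split (hb : 2 ≤ b) : ∀ (k x y : ℕ), x < b ^ k → s b (x + b ^ k * y) = s b x + s b y := by
  intro k
  induction k with
  | zero =>
    intro x y hx
    have : x = 0 := by simpa using hx
    subst this
    simp [s_zero]
  | succ k ih =>
    intro x y hx
    have h1 : x / b < b ^ k := Nat.div_lt_of_lt_mul (by rw [pow_succ] at hx; linarith [mul_comm b (b ^ k)])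
    have h2 : x + b ^ (k + 1) * y = x % b + b * (x / b + b ^ k * y) := by
      have := Nat.mod_add_div x b
      calc x + b ^ (k + 1) * y = (x % b + b * (x / b)) + b ^ (k + 1) * y := by rw [this]
        _ = _ := by ring
    rw [h2, s_add_mul hb (Nat.mod_lt _ (by omega)), ih _ _ h1, s_rec hb x]
    ring

theorem s_pow_mul (hb : 2 ≤ b) (k y : ℕ) : s b (b ^ k * y) = s b y := by
  have := s_split hb k 0 y (by positivity)
  simpa [s_zero] using this

theorem s_small (hb : 2 ≤ b) {x : ℕ} (hx : x < b) : s b x = x := by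
  have := s_add_mul hb hx 0
  simpa [s_zero] using this

theorem s_pow (hb : 2 ≤ b) (k : ℕ) : s b (b ^ k) = 1 := by
  have := s_pow_mul hb k 1
  rw [mul_one] at this
  rw [this, s_small hb (by omega)]

theorem s_carry (hb : 2 ≤ b) : ∀ (m x y : ℕ), x + y = m →
    ∃ c, s b x + s b y = s b (x + y) + (b - 1) * c := by
  intro m
  induction m using Nat.strong_induction_on with
  | _ m ih =>
    intro x y hxy
    rcases Nat.eq_zero_or_pos m with h0 | hpos
    · have hx : x = 0 := by omega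
      have hy : y = 0 := by omega
      subst hx; subst hy
      exact ⟨0, by simp [s_zero]⟩
    have hbpos : 0 < b := by omega
    set x0 := x % b with hx0
    set x1 := x / b with hx1
    set y0 := y % b with hy0
    set y1 := y / b with hy1
    have ex : x = x0 + b * x1 := (Nat.mod_add_div x b).symm
    have ey : y = y0 + b * y1 := (Nat.mod_add_div y b).symm
    have lx : x0 < b := Nat.mod_lt _ hbpos
    have ly : y0 < b := Nat.mod_lt _ hbpos
    have hsum : x + y = (x0 + y0) + b * (x1 + y1) := by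
      rw [mul_add]; omega
    have hmul : 2 * (x1 + y1) ≤ b * (x1 + y1) := Nat.mul_le_mul_right _ hb
    have hsx : s b x = x0 + s b x1 := s_rec hb x
    have hsy : s b y = y0 + s b y1 := s_rec hb y
    have hlt1 : x1 + y1 < m := by omega
    obtain ⟨c1, hc1⟩ := ih (x1 + y1) hlt1 x1 y1 rfl
    by_cases hc : x0 + y0 < b
    · refine ⟨c1, ?_⟩
      rw [hsum, s_add_mul hb hc, hsx, hsy]
      omega
    · have hlt2 : (x1 + y1) + 1 < m := by omega
      obtain ⟨c2, hc2⟩ := ih ((x1 + y1) + 1) hlt2 (x1 + y1) 1 rfl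
      have h1 : s b 1 = 1 := s_small hb (by omega)
      refine ⟨c1 + c2 + 1, ?_⟩
      have hsum2 : x + y = (x0 + y0 - b) + b * (x1 + y1 + 1) := by
        rw [hsum, mul_add b (x1 + y1) 1]; omega
      have hl3 : x0 + y0 - b < b := by omega
      rw [hsum2, s_add_mul hb hl3, hsx, hsy]
      have h3 : (b - 1) * (c1 + c2 + 1) = (b - 1) * c1 + (b - 1) * c2 + (b - 1) := by ring
      rw [h3]
      omega

theorem list_of_nat (hb : 2 ≤ b) : ∀ N : ℕ, ∃ l : List ℕ, l.length = s b N ∧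
    (l.map (fun e => b ^ e)).sum = N := by
  intro N
  induction N using Nat.strong_induction_on with
  | _ N ih =>
    rcases Nat.eq_zero_or_pos N with h0 | hpos
    · subst h0; exact ⟨[], by simp [s_zero], by simp⟩
    obtain ⟨l, hl, hs⟩ := ih (N / b) (Nat.div_lt_self hpos (by omega))
    refine ⟨List.replicate (N % b) 0 ++ l.map (· + 1), ?_, ?_⟩
    · simp [hl, s_rec hb N]
    · have h1 : ((l.map (· + 1)).map (fun e => b ^ e)).sum = b * (N / b) := by
        rw [← hs, ← List.sum_map_mul_left, List.map_map]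
        congr 1
        apply List.map_congr_left
        intro e _
        simp [pow_succ, mul_comm]
      rw [List.map_append, List.sum_append, h1]
      simp [Nat.mod_add_div]

theorem s_pos (hb : 2 ≤ b) {N : ℕ} (hN : 0 < N) : 0 < s b N := by
  obtain ⟨l, hl, hs⟩ := list_of_nat hb N
  rcases Nat.eq_zero_or_pos (s b N) with h | h
  · rw [h] at hl
    have : l = [] := List.length_eq_zero_iff.1 hl
    subst this
    simp at hs
    omega
  · exact h

end digits

section out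

variable {b m d : ℕ}

theorem make (hb : 2 ≤ b) (hd : 1 ≤ d) (hmod : b ^ d ≡ 1 [MOD m]) (l : List ℕ) :
    ∃ N, s b N = l.length ∧ N ≡ (l.map (fun e => b ^ e)).sum [MOD m] := by
  induction l with
  | nil => exact ⟨0, by simp [s_zero], by simp; rfl⟩
  | cons e l ih =>
    obtain ⟨N, hN, hc⟩ := ih
    refine ⟨N + b ^ (d * N + e) * 1, ?_, ?_⟩
    · rw [s_split hb, hN, s_small hb (by omega)]
      · simp
      · calc N < b ^ N := Nat.lt_pow_self (by omega)
          _ ≤ b ^ (d * N + e) := Nat.pow_le_pow_right (by omega) (by nlinarith)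
    · have h1 : b ^ (d * N + e) * 1 ≡ b ^ e [MOD m] := by
        rw [mul_one, pow_add, pow_mul]
        have h2 : (b ^ d) ^ N * b ^ e ≡ 1 ^ N * b ^ e [MOD m] :=
          (hmod.pow N).mul_right _
        simpa using h2
      have h3 := hc.add h1
      simp only [List.map_cons, List.sum_cons]
      rw [add_comm (b ^ e)]
      exact h3

theorem out_of_list (hb : 2 ≤ b) (hd : 1 ≤ d) (hmod : b ^ d ≡ 1 [MOD m]) (l : List ℕ)
    (hl : l ≠ []) (h : m ∣ (l.map (fun e => b ^ e)).sum) : l.length ∈ Out b m := by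
  obtain ⟨N, hN, hc⟩ := make hb hd hmod l
  refine ⟨N, ?_, ?_, hN⟩
  · rcases Nat.eq_zero_or_pos N with h0 | h0
    · subst h0
      rw [s_zero] at hN
      exact absurd (List.length_eq_zero_iff.1 hN.symm) hl
    · exact h0
  · exact (hc.dvd_iff (dvd_refl m)).2 h

theorem list_of_out (hb : 2 ≤ b) {u : ℕ} (hu : u ∈ Out b m) : ∃ l : List ℕ, l ≠ [] ∧
    l.length = u ∧ m ∣ (l.map (fun e => b ^ e)).sum := by
  obtain ⟨N, hN, hd, hs⟩ := hu
  obtain ⟨l, hl, hsum⟩ := list_of_nat hb N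
  refine ⟨l, ?_, by omega, by rw [hsum]; exact hd⟩
  rintro rfl
  simp at hsum
  omega

theorem out_add (hb : 2 ≤ b) (hd : 1 ≤ d) (hmod : b ^ d ≡ 1 [MOD m]) {u v : ℕ}
    (hu : u ∈ Out b m) (hv : v ∈ Out b m) : u + v ∈ Out b m := by
  obtain ⟨l, h1, h2, h3⟩ := list_of_out hb hu
  obtain ⟨l', h1', h2', h3'⟩ := list_of_out hb hv
  have := out_of_list hb hd hmod (l ++ l') (by simp [h1]) (by
    rw [List.map_append, List.sum_append]; exact dvd_add h3 h3')
  rw [List.length_append, h2, h2'] at this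
  exact this

theorem out_mul (hb : 2 ≤ b) (hd : 1 ≤ d) (hmod : b ^ d ≡ 1 [MOD m]) {u : ℕ}
    (hu : u ∈ Out b m) : ∀ t : ℕ, 1 ≤ t → u * t ∈ Out b m := by
  intro t ht
  induction t, ht using Nat.le_induction with
  | base => simpa using hu
  | succ t _ ih => rw [mul_add, mul_one]; exact out_add hb hd hmod ih hu

theorem out_step (hb : 2 ≤ b) (hd : 1 ≤ d) (hmod : b ^ d ≡ 1 [MOD m]) {u : ℕ}
    (hu : u ∈ Out b m) : u + (b - 1) ∈ Out b m := by
  obtain ⟨l, h1, h2, h3⟩ := list_of_out hb hu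
  obtain ⟨e, l', rfl⟩ := List.exists_cons_of_ne_nil h1
  have hsum : ((List.replicate b e ++ l'.map (· + 1)).map (fun e => b ^ e)).sum
      = b * ((e :: l').map (fun e => b ^ e)).sum := by
    have h4 : ((l'.map (· + 1)).map (fun e => b ^ e)).sum
        = b * (l'.map (fun e => b ^ e)).sum := by
      rw [← List.sum_map_mul_left, List.map_map]
      congr 1
      apply List.map_congr_left
      intro e _
      simp [pow_succ, mul_comm]
    rw [List.map_append, List.sum_append, h4]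
    simp [mul_add]
  have := out_of_list hb hd hmod (List.replicate b e ++ l'.map (· + 1)) (by
      intro h
      have := congrArg List.length h
      simp at this
      omega) (by rw [hsum]; exact dvd_mul_of_dvd_right h3 b)
  have hlen : (List.replicate b e ++ l'.map (· + 1)).length = u + (b - 1) := by
    simp at h2 ⊢
    omega
  rw [hlen] at this
  exact this

theorem out_steps (hb : 2 ≤ b) (hd : 1 ≤ d) (hmod : b ^ d ≡ 1 [MOD m]) {u : ℕ}
    (hu : u ∈ Out b m) : ∀ j : ℕ, u + (b - 1) * j ∈ Out b m := by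
  intro j
  induction j with
  | zero => simpa using hu
  | succ j ih =>
    have := out_step hb hd hmod ih
    rwa [mul_add, mul_one, ← add_assoc]

/-- the part of `n` dividing a power of `b` plays no role -/
theorem out_reduce (hb : 2 ≤ b) {n : ℕ} (hm : m ∣ n) {k : ℕ} (hk : n ∣ m * b ^ k) :
    Out b n = Out b m := by
  ext u
  constructor
  · rintro ⟨N, hN, hd, hs⟩
    exact ⟨N, hN, hm.trans hd, hs⟩
  · rintro ⟨N, hN, hd, hs⟩
    refine ⟨b ^ k * N, by positivity, ?_, by rw [s_pow_mul hb, hs]⟩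
    obtain ⟨c, rfl⟩ := hd
    exact hk.trans ⟨c, by ring⟩

end out

section main

variable {b m d : ℕ}

theorem sum_range_list (b d : ℕ) : ((List.range d).map (fun e => b ^ e)).sum
    = ∑ i ∈ Finset.range d, b ^ i := by
  induction d with
  | zero => simp
  | succ d ih => rw [List.range_succ, List.map_append, List.sum_append, ih,
      Finset.sum_range_succ]; simp

theorem geom (hb : 2 ≤ b) (d : ℕ) :
    (∑ i ∈ Finset.range d, b ^ i) * (b - 1) + 1 = b ^ d := by
  have := geom_sum_mul_add (b - 1) d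
  rwa [Nat.sub_add_cancel (by omega)] at this

theorem out_order (hb : 2 ≤ b) (hd : 1 ≤ d) (hmod : b ^ d ≡ 1 [MOD m])
    (hco : Nat.Coprime (b - 1) m) : d ∈ Out b m := by
  have h1 : m ∣ b ^ d - 1 := (Nat.modEq_iff_dvd' (Nat.one_le_pow _ _ (by omega))).1 hmod.symm
  have h2 := geom hb d
  have h3 : m ∣ (∑ i ∈ Finset.range d, b ^ i) * (b - 1) := by
    have : (∑ i ∈ Finset.range d, b ^ i) * (b - 1) = b ^ d - 1 := by omega
    rw [this]; exact h1
  have h4 : m ∣ ∑ i ∈ Finset.range d, b ^ i := (hco.symm).dvd_of_dvd_mul_right h3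
  have := out_of_list hb hd hmod (List.range d) (by
    intro h
    have := congrArg List.length h
    simp at this
    omega) (by rw [sum_range_list]; exact h4)
  simpa using this

theorem out_rep (hb : 2 ≤ b) (hd : 1 ≤ d) (hmod : b ^ d ≡ 1 [MOD m])
    (hco : Nat.Coprime (b - 1) m) {t : ℕ} (ht : 1 ≤ t) (j : ℕ) :
    d * t + (b - 1) * j ∈ Out b m :=
  out_steps hb hd hmod (out_mul hb hd hmod (out_order hb hd hmod hco) t ht) j

theorem upper_order (hb : 2 ≤ b) (hd : 1 ≤ d) (hmod : b ^ d ≡ 1 [MOD m])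
    (hco : Nat.Coprime (b - 1) m) (hcd : Nat.Coprime d (b - 1)) {u : ℕ}
    (hu : (d - 1) * (b - 1) < u) : u ∈ Out b m := by
  have hk := (Nat.chineseRemainder hcd u 0).2
  have hlt := Nat.chineseRemainder_lt_mul hcd u 0 (by omega) (by omega)
  set k : ℕ := (Nat.chineseRemainder hcd u 0 : ℕ) with hkdef
  obtain ⟨j, hj⟩ := (Nat.modEq_zero_iff_dvd).1 hk.2
  have hjd : j < d := by
    rw [hj, mul_comm d] at hlt
    exact Nat.lt_of_mul_lt_mul_left hlt
  have hle : k ≤ (d - 1) * (b - 1) := by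
    rw [hj, mul_comm]
    exact Nat.mul_le_mul_right _ (by omega)
  obtain ⟨t, ht⟩ := (Nat.modEq_iff_dvd' (by omega : k ≤ u)).1 hk.1
  have ht1 : 1 ≤ t := by
    rcases Nat.eq_zero_or_pos t with h | h
    · subst h; simp at ht; omega
    · exact h
  have hu2 : u = d * t + (b - 1) * j := by omega
  rw [hu2]
  exact out_rep hb hd hmod hco ht1 j

theorem upper_lin (hb : 2 ≤ b) (hd : 1 ≤ d) (hmod : b ^ d ≡ 1 [MOD m]) (hm : 1 < m)
    (hco : Nat.Coprime (b - 1) m) {u : ℕ} (hu0 : 0 < u)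
    (hu : m - 1 ≤ u ∨ (u = m - 2 ∧ ¬ m ∣ b + 1)) : u ∈ Out b m := by
  have hk := (Nat.chineseRemainder hco 0 (m - u % m)).2
  have hlt := Nat.chineseRemainder_lt_mul hco 0 (m - u % m) (by omega) (by omega)
  set k : ℕ := (Nat.chineseRemainder hco 0 (m - u % m) : ℕ) with hkdef
  obtain ⟨y, hy⟩ := (Nat.modEq_zero_iff_dvd).1 hk.1
  have hym : y < m := by
    rw [hy] at hlt
    exact Nat.lt_of_mul_lt_mul_left hlt
  have hdvd : m ∣ u + k := by
    have h1 : u + k ≡ u % m + (m - u % m) [MOD m] := (Nat.mod_modEq u m).symm.add hk.2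
    have h2 : u % m + (m - u % m) = m := by
      have := Nat.mod_lt u (by omega : 0 < m)
      omega
    rw [h2] at h1
    exact (Nat.modEq_zero_iff_dvd).1 (h1.trans (by simp [Nat.ModEq]))
  have hyu : y ≤ u := by
    rcases hu with hu | ⟨hu, hnd⟩
    · omega
    · by_contra hcon
      have hy2 : y = m - 1 := by omega
      apply hnd
      have h3 : (u + k) + (b + 1) = m * b := by
        obtain ⟨c, rfl⟩ : ∃ c, b = c + 2 := ⟨b - 2, by omega⟩
        obtain ⟨a, rfl⟩ : ∃ a, m = a + 2 := ⟨m - 2, by omega⟩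
        rw [hy, hy2, hu]
        simp only [Nat.add_sub_cancel]
        have e1 : c + 2 - 1 = c + 1 := by omega
        have e2 : a + 2 - 1 = a + 1 := by omega
        rw [e1, e2]
        ring
      have h4 : m ∣ (u + k) + (b + 1) := by rw [h3]; exact dvd_mul_right _ _
      exact (Nat.dvd_add_right hdvd).1 h4
  have hsum : ((List.replicate (u - y) 0 ++ List.replicate y 1).map (fun e => b ^ e)).sum
      = u + k := by
    simp only [List.map_append, List.map_replicate, List.sum_append, List.sum_replicate,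
      pow_zero, pow_one, smul_eq_mul]
    rw [hy]
    obtain ⟨c, rfl⟩ : ∃ c, b = c + 1 := ⟨b - 1, by omega⟩
    obtain ⟨x, rfl⟩ : ∃ x, u = x + y := ⟨u - y, by omega⟩
    simp only [Nat.add_sub_cancel]
    ring
  have := out_of_list hb hd hmod (List.replicate (u - y) 0 ++ List.replicate y 1) (by
    intro h
    have := congrArg List.length h
    simp at this
    omega) (by rw [hsum]; exact hdvd)
  have hlen : (List.replicate (u - y) 0 ++ List.replicate y 1).length = u := by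
    simp; omega
  rwa [hlen] at this

theorem alt_list (hm : (m : ℤ) ∣ (b : ℤ) + 1) (l : List ℕ) : ∃ p q : ℕ, p + q = l.length ∧
    (m : ℤ) ∣ ((l.map (fun e => b ^ e)).sum : ℕ) - ((p : ℤ) - q) := by
  induction l with
  | nil => exact ⟨0, 0, by simp, by simp⟩
  | cons e l ih =>
    obtain ⟨p, q, hpq, hdvd⟩ := ih
    have hbm : (m : ℤ) ∣ (b : ℤ) - (-1) := by simpa using hm
    have hpow : (m : ℤ) ∣ (b : ℤ) ^ e - (-1) ^ e := hbm.trans (sub_dvd_pow_sub_pow _ _ e)
    rcases Nat.even_or_odd e with he | he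
    · refine ⟨p + 1, q, by simp; omega, ?_⟩
      rw [he.neg_one_pow] at hpow
      have h3 := dvd_add hdvd hpow
      simp only [List.map_cons, List.sum_cons]
      generalize (l.map (fun e => b ^ e)).sum = S at h3 ⊢
      have h4 : ((b ^ e + S : ℕ) : ℤ) - (((p + 1 : ℕ) : ℤ) - (q : ℤ))
          = (S : ℤ) - ((p : ℤ) - q) + ((b : ℤ) ^ e - 1) := by push_cast; ring
      rw [h4]; exact h3
    · refine ⟨p, q + 1, by simp; omega, ?_⟩
      rw [he.neg_one_pow] at hpow
      have h3 := dvd_add hdvd hpow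
      simp only [List.map_cons, List.sum_cons]
      generalize (l.map (fun e => b ^ e)).sum = S at h3 ⊢
      have h4 : ((b ^ e + S : ℕ) : ℤ) - ((p : ℤ) - ((q + 1 : ℕ) : ℤ))
          = (S : ℤ) - ((p : ℤ) - q) + ((b : ℤ) ^ e - (-1)) := by push_cast; ring
      rw [h4]; exact h3

theorem lower_lin (hb : 2 ≤ b) (hodd : ¬ 2 ∣ m) (hm3 : 3 ≤ m) (h : m ∣ b + 1) :
    m - 2 ∉ Out b m := by
  intro hmem
  obtain ⟨l, _, hlen, hdvd⟩ := list_of_out hb hmem
  obtain ⟨p, q, hpq, hd2⟩ := alt_list (b := b) (m := m) (by exact_mod_cast h) l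
  have hd3 : (m : ℤ) ∣ (p : ℤ) - q := by
    have h1 : (m : ℤ) ∣ ((l.map (fun e => b ^ e)).sum : ℕ) := by exact_mod_cast hdvd
    have := dvd_sub h1 hd2
    simpa using this
  have habs : |(p : ℤ) - q| < m := by
    rw [abs_lt]; constructor <;> omega
  have h0 := Int.eq_zero_of_abs_lt_dvd hd3 habs
  apply hodd
  have : p = q := by omega
  omega

/-- digit sums of the multiples `t * (1 + b + ... + b^(d-1))`, `t < b` -/
theorem s_mul_repunit (hb : 2 ≤ b) {t : ℕ} (ht : t < b) (d : ℕ) :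
    s b (t * ∑ i ∈ Finset.range d, b ^ i) = d * t := by
  induction d with
  | zero => simp [s_zero]
  | succ d ih =>
    have h1 : t * ∑ i ∈ Finset.range (d + 1), b ^ i
        = t + b * (t * ∑ i ∈ Finset.range d, b ^ i) := by
      rw [Finset.sum_range_succ']
      have : ∑ i ∈ Finset.range d, b ^ (i + 1) = b * ∑ i ∈ Finset.range d, b ^ i := by
        rw [Finset.mul_sum]; apply Finset.sum_congr rfl; intro i _; ring
      rw [this]; ring
    rw [h1, s_add_mul hb ht, ih]; ring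

theorem repunit_mult (hb : 2 ≤ b) (hd : 1 ≤ d) : ∀ N : ℕ, 0 < N →
    (∑ i ∈ Finset.range d, b ^ i) ∣ N → ∃ t j, 1 ≤ t ∧ s b N = d * t + (b - 1) * j := by
  intro N
  have hg := geom hb d
  set R := ∑ i ∈ Finset.range d, b ^ i with hR
  induction N using Nat.strong_induction_on with
  | _ N ih =>
    intro hN hdvd
    by_cases hlt : N < b ^ d
    · obtain ⟨t, rfl⟩ := hdvd
      have ht : t < b := by
        by_contra hcon
        have h1 : R * b ≤ R * t := Nat.mul_le_mul_left _ (by omega)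
        have h2 : R * b = R * (b - 1) + R := by
          obtain ⟨c, rfl⟩ : ∃ c, b = c + 1 := ⟨b - 1, by omega⟩
          simp; ring
        have h3 : 0 < R := Nat.pos_of_ne_zero (by rintro h; rw [h] at hN; simp at hN)
        omega
      refine ⟨t, 0, Nat.pos_of_ne_zero (by rintro rfl; simp at hN), ?_⟩
      rw [mul_comm R t, hR, s_mul_repunit hb ht]
      simp
    · have hbd : 0 < b ^ d := by positivity
      have hb1 : 2 ≤ b ^ d := by
        calc 2 ≤ b := hb
          _ = b ^ 1 := (pow_one b).symm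
          _ ≤ b ^ d := Nat.pow_le_pow_right (by omega) hd
      obtain ⟨A, B, hN2, hA1, hB⟩ : ∃ A B : ℕ, A + b ^ d * B = N ∧ A < b ^ d ∧ 1 ≤ B :=
        ⟨N % b ^ d, N / b ^ d, Nat.mod_add_div N (b ^ d), Nat.mod_lt _ hbd,
          Nat.div_pos (by omega) hbd⟩
      have hmul : 2 * B ≤ b ^ d * B := Nat.mul_le_mul_right _ hb1
      have hdv : R ∣ A + B := by
        have h1 : N = (A + B) + R * ((b - 1) * B) := by
          have : b ^ d * B = R * (b - 1) * B + B := by rw [← hg]; ring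
          rw [← mul_assoc]
          omega
        rw [h1] at hdvd
        exact (Nat.dvd_add_left (dvd_mul_right _ _)).1 hdvd
      obtain ⟨t, j, ht, hj⟩ := ih (A + B) (by omega) (by omega) hdv
      obtain ⟨c, hc⟩ := s_carry hb (A + B) A B rfl
      refine ⟨t, j + c, ht, ?_⟩
      have hs : s b N = s b A + s b B := by
        conv_lhs => rw [← hN2]
        exact s_split hb d A B hA1
      rw [hs, hc, hj]; ring

theorem lower_repunit (hb : 2 ≤ b) (hd : 1 ≤ d) (hcd : Nat.Coprime d (b - 1)) :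
    (d - 1) * (b - 1) ∉ Out b (∑ i ∈ Finset.range d, b ^ i) := by
  rintro ⟨N, hN, hdvd, hs⟩
  obtain ⟨t, j, ht, hj⟩ := repunit_mult hb hd N hN hdvd
  rw [hs] at hj
  have h1 : (b - 1) ∣ d * t := by
    have h2 : (b - 1) ∣ d * t + (b - 1) * j := by rw [← hj]; exact dvd_mul_left _ _
    exact (Nat.dvd_add_left (dvd_mul_right _ _)).1 h2
  have h3 : (b - 1) ∣ t := (hcd.symm).dvd_of_dvd_mul_left h1
  have h4 : b - 1 ≤ t := Nat.le_of_dvd (by omega) h3
  have h5 : d * (b - 1) ≤ d * t := Nat.mul_le_mul_left _ h4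
  have h6 : d * (b - 1) = (d - 1) * (b - 1) + (b - 1) := by
    obtain ⟨c, rfl⟩ : ∃ c, d = c + 1 := ⟨d - 1, by omega⟩
    simp; ring
  omega

theorem plus_one_mult (hb : 2 ≤ b) {k : ℕ} (hk : 1 ≤ k) : ∀ N : ℕ, 0 < N →
    (b ^ k + 1) ∣ N → s b N ≤ b - 1 → 2 ∣ s b N := by
  intro N
  induction N using Nat.strong_induction_on with
  | _ N ih =>
    intro hN hdvd hle
    have hbk : 0 < b ^ k := by positivity
    by_cases hlt : N < b ^ (k + k)
    · obtain ⟨A, B, hN2, hA, hB⟩ : ∃ A B : ℕ, A + b ^ k * B = N ∧ A < b ^ k ∧ B < b ^ k :=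
        ⟨N % b ^ k, N / b ^ k, Nat.mod_add_div N (b ^ k), Nat.mod_lt _ hbk,
          Nat.div_lt_of_lt_mul (by rw [← pow_add]; exact hlt)⟩
      have hd2 : ((b ^ k + 1 : ℕ) : ℤ) ∣ (A : ℤ) - B := by
        have h1 : ((b ^ k + 1 : ℕ) : ℤ) ∣ (N : ℤ) := by exact_mod_cast hdvd
        have h2 : (A : ℤ) - B = N - ((b ^ k + 1 : ℕ) : ℤ) * B := by
          rw [← hN2]; push_cast; ring
        rw [h2]
        exact dvd_sub h1 (dvd_mul_right _ _)
      have habs : |(A : ℤ) - B| < ((b ^ k + 1 : ℕ) : ℤ) := by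
        rw [abs_lt]
        generalize b ^ k = K at hA hB ⊢
        constructor <;> omega
      have h0 := Int.eq_zero_of_abs_lt_dvd hd2 habs
      have hAB : A = B := by omega
      have hs : s b N = s b A + s b B := by
        conv_lhs => rw [← hN2]
        exact s_split hb k A B hA
      rw [hs, hAB]
      exact ⟨s b B, by ring⟩
    · have hbd : 0 < b ^ (k + k) := by positivity
      have hb1 : 2 ≤ b ^ (k + k) := by
        calc 2 ≤ b := hb
          _ = b ^ 1 := (pow_one b).symm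
          _ ≤ b ^ (k + k) := Nat.pow_le_pow_right (by omega) (by omega)
      obtain ⟨A, B, hN2, hA1, hB1⟩ : ∃ A B : ℕ,
          A + b ^ (k + k) * B = N ∧ A < b ^ (k + k) ∧ 1 ≤ B :=
        ⟨N % b ^ (k + k), N / b ^ (k + k), Nat.mod_add_div N (b ^ (k + k)),
          Nat.mod_lt _ hbd, Nat.div_pos (by omega) hbd⟩
      have hmul : 2 * B ≤ b ^ (k + k) * B := Nat.mul_le_mul_right _ hb1
      have hdv : (b ^ k + 1) ∣ A + B := by
        have h1 : N = (A + B) + (b ^ k + 1) * ((b ^ k - 1) * B) := by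
          have e1 : (b ^ k + 1) * (b ^ k - 1) + 1 = b ^ (k + k) := by
            rw [pow_add]
            obtain ⟨c, hc⟩ : ∃ c, b ^ k = c + 1 := ⟨b ^ k - 1, by omega⟩
            rw [hc]; simp; ring
          have : b ^ (k + k) * B = (b ^ k + 1) * (b ^ k - 1) * B + B := by
            rw [← e1]; ring
          rw [← mul_assoc]
          omega
        rw [h1] at hdvd
        exact (Nat.dvd_add_left (dvd_mul_right _ _)).1 hdvd
      obtain ⟨c, hc⟩ := s_carry hb (A + B) A B rfl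
      have hs : s b N = s b A + s b B := by
        conv_lhs => rw [← hN2]
        exact s_split hb (k + k) A B hA1
      have hpos : 0 < s b (A + B) := s_pos hb (by omega)
      have hc0 : c = 0 := by
        rcases Nat.eq_zero_or_pos c with h | h
        · exact h
        · have : (b - 1) * 1 ≤ (b - 1) * c := Nat.mul_le_mul_left _ h
          omega
      subst hc0
      have hss : s b N = s b (A + B) := by rw [hs, hc]; simp
      rw [hss]
      exact ih (A + B) (by omega) (by omega) hdv (by omega)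

end main

section quartic

variable {b m : ℕ}

theorem list4 (hm : (m : ℤ) ∣ (b : ℤ) ^ 2 + 1) (l : List ℕ) :
    ∃ p0 p1 p2 p3 : ℕ, p0 + p1 + p2 + p3 = l.length ∧
    (m : ℤ) ∣ ((l.map (fun e => b ^ e)).sum : ℕ)
      - (((p0 : ℤ) - p2) + ((p1 : ℤ) - p3) * b) := by
  induction l with
  | nil => exact ⟨0, 0, 0, 0, by simp, by simp⟩
  | cons e l ih =>
    obtain ⟨p0, p1, p2, p3, hp, hdvd⟩ := ih
    have h4 : (m : ℤ) ∣ (b : ℤ) ^ 4 - 1 := hm.trans ⟨(b : ℤ) ^ 2 - 1, by ring⟩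
    have hq : ∀ q : ℕ, (m : ℤ) ∣ ((b : ℤ) ^ 4) ^ q - 1 := fun q => by
      have := sub_dvd_pow_sub_pow ((b : ℤ) ^ 4) 1 q
      rw [one_pow] at this
      exact h4.trans this
    have he : ∃ q r, e = 4 * q + r ∧ r < 4 := ⟨e / 4, e % 4, (Nat.div_add_mod e 4).symm,
      Nat.mod_lt _ (by omega)⟩
    obtain ⟨q, r, rfl, hr⟩ := he
    have hpow : (m : ℤ) ∣ (b : ℤ) ^ (4 * q + r) - (b : ℤ) ^ r := by
      have : (b : ℤ) ^ (4 * q + r) - (b : ℤ) ^ r = (((b : ℤ) ^ 4) ^ q - 1) * (b : ℤ) ^ r := by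
        rw [pow_add, pow_mul]; ring
      rw [this]; exact dvd_mul_of_dvd_left (hq q) _
    have key := dvd_add hdvd hpow
    simp only [List.map_cons, List.sum_cons, List.length_cons]
    generalize (l.map (fun e => b ^ e)).sum = S at key ⊢
    have hcases : r = 0 ∨ r = 1 ∨ r = 2 ∨ r = 3 := by omega
    rcases hcases with rfl | rfl | rfl | rfl
    · refine ⟨p0 + 1, p1, p2, p3, by omega, ?_⟩
      have h5 : ((b ^ (4 * q + 0) + S : ℕ) : ℤ)
          - ((((p0 + 1 : ℕ) : ℤ) - p2) + ((p1 : ℤ) - p3) * b)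
          = (S : ℤ) - (((p0 : ℤ) - p2) + ((p1 : ℤ) - p3) * b)
            + ((b : ℤ) ^ (4 * q + 0) - (b : ℤ) ^ 0) := by push_cast; ring
      rw [h5]; exact key
    · refine ⟨p0, p1 + 1, p2, p3, by omega, ?_⟩
      have h5 : ((b ^ (4 * q + 1) + S : ℕ) : ℤ)
          - (((p0 : ℤ) - p2) + (((p1 + 1 : ℕ) : ℤ) - p3) * b)
          = (S : ℤ) - (((p0 : ℤ) - p2) + ((p1 : ℤ) - p3) * b)
            + ((b : ℤ) ^ (4 * q + 1) - (b : ℤ) ^ 1) := by push_cast; ring
      rw [h5]; exact key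
    · refine ⟨p0, p1, p2 + 1, p3, by omega, ?_⟩
      have h5 : ((b ^ (4 * q + 2) + S : ℕ) : ℤ)
          - (((p0 : ℤ) - ((p2 + 1 : ℕ) : ℤ)) + ((p1 : ℤ) - p3) * b)
          = ((S : ℤ) - (((p0 : ℤ) - p2) + ((p1 : ℤ) - p3) * b)
            + ((b : ℤ) ^ (4 * q + 2) - (b : ℤ) ^ 2)) + ((b : ℤ) ^ 2 + 1) := by push_cast; ring
      rw [h5]; exact dvd_add key hm
    · refine ⟨p0, p1, p2, p3 + 1, by omega, ?_⟩
      have h5 : ((b ^ (4 * q + 3) + S : ℕ) : ℤ)
          - (((p0 : ℤ) - p2) + ((p1 : ℤ) - ((p3 + 1 : ℕ) : ℤ)) * b)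
          = ((S : ℤ) - (((p0 : ℤ) - p2) + ((p1 : ℤ) - p3) * b)
            + ((b : ℤ) ^ (4 * q + 3) - (b : ℤ) ^ 3)) + ((b : ℤ) ^ 2 + 1) * b := by
        push_cast; ring
      rw [h5]; exact dvd_add key (dvd_mul_of_dvd_left hm _)

theorem gauss_min {B M s t x y : ℤ} (hM : 0 < M) (hm : M ∣ B ^ 2 + 1) (hst : M = s ^ 2 + t ^ 2)
    (hs : 0 ≤ s) (ht : 0 ≤ t) (h1 : M ∣ s + t * B) (h2 : M ∣ x + y * B)
    (hodd : ¬ (2 : ℤ) ∣ x + y) : s + t ≤ |x| + |y| := by
  obtain ⟨P, hP⟩ : M ∣ x * s + y * t := by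
    have : x * s + y * t = (x + y * B) * s - y * B * (s + t * B) + y * t * (B ^ 2 + 1) := by ring
    rw [this]
    exact dvd_add (dvd_sub (dvd_mul_of_dvd_left h2 _) (dvd_mul_of_dvd_right h1 _))
      (dvd_mul_of_dvd_right hm _)
  obtain ⟨Q, hQ⟩ : M ∣ x * t - y * s := by
    have : x * t - y * s = (x + y * B) * t - y * (s + t * B) := by ring
    rw [this]
    exact dvd_sub (dvd_mul_of_dvd_left h2 _) (dvd_mul_of_dvd_right h1 _)
  have hx : x = s * P + t * Q := by
    have : M * x = M * (s * P + t * Q) := by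
      calc M * x = s * (x * s + y * t) + t * (x * t - y * s) := by rw [hst]; ring
        _ = _ := by rw [hP, hQ]; ring
    exact mul_left_cancel₀ hM.ne' this
  have hy : y = t * P - s * Q := by
    have : M * y = M * (t * P - s * Q) := by
      calc M * y = t * (x * s + y * t) - s * (x * t - y * s) := by rw [hst]; ring
        _ = _ := by rw [hP, hQ]; ring
    exact mul_left_cancel₀ hM.ne' this
  have hN : x ^ 2 + y ^ 2 = M * (P ^ 2 + Q ^ 2) := by rw [hx, hy, hst]; ring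
  by_cases hbig : 2 ≤ P ^ 2 + Q ^ 2
  · have h3 : 2 * M ≤ x ^ 2 + y ^ 2 := by rw [hN]; nlinarith
    have h4 : (s + t) ^ 2 ≤ (|x| + |y|) ^ 2 := by
      have e1 : (|x| + |y|) ^ 2 = x ^ 2 + y ^ 2 + 2 * (|x| * |y|) := by
        rw [← sq_abs x, ← sq_abs y]; ring
      have e2 : 0 ≤ |x| * |y| := by positivity
      nlinarith [sq_nonneg (s - t)]
    exact abs_le_of_sq_le_sq' h4 (by positivity) |>.2
  · have hPQ : P ^ 2 + Q ^ 2 ≤ 1 := by omega
    have hP2 : P ^ 2 ≤ 1 := by nlinarith [sq_nonneg Q]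
    have hQ2 : Q ^ 2 ≤ 1 := by nlinarith [sq_nonneg P]
    have hPl : -1 ≤ P ∧ P ≤ 1 := by constructor <;> nlinarith
    have hQl : -1 ≤ Q ∧ Q ≤ 1 := by constructor <;> nlinarith
    have hPc : P = -1 ∨ P = 0 ∨ P = 1 := by omega
    have hQc : Q = -1 ∨ Q = 0 ∨ Q = 1 := by omega
    rcases hPc with rfl | rfl | rfl <;> rcases hQc with rfl | rfl | rfl <;>
      first
      | (exfalso; norm_num at hPQ; done)
      | (exfalso; apply hodd; rw [hx, hy]; simp; done)
      | (rw [hx, hy]; simp [abs_of_nonneg hs, abs_of_nonneg ht, abs_neg]; done)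
      | (rw [hx, hy]; simp [abs_of_nonneg hs, abs_of_nonneg ht, abs_neg, add_comm])

theorem lower4 (hb : 2 ≤ b) (hm0 : 0 < m) (hodd : ¬ 2 ∣ m) (hm : m ∣ b ^ 2 + 1) {x y : ℕ}
    (hxy : m = x ^ 2 + y ^ 2) (hd : m ∣ x + y * b) : x + y - 2 ∉ Out b m := by
  intro hmem
  obtain ⟨l, hl, hlen, hdvd⟩ := list_of_out hb hmem
  have hmz : (m : ℤ) ∣ (b : ℤ) ^ 2 + 1 := by exact_mod_cast hm
  obtain ⟨p0, p1, p2, p3, hp, hd2⟩ := list4 hmz l
  have hd3 : (m : ℤ) ∣ ((p0 : ℤ) - p2) + ((p1 : ℤ) - p3) * b := by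
    have h1 : (m : ℤ) ∣ ((l.map (fun e => b ^ e)).sum : ℕ) := by exact_mod_cast hdvd
    have := dvd_sub h1 hd2
    simpa using this
  have hpar : ¬ (2 : ℕ) ∣ x + y := by
    intro h
    apply hodd
    rw [hxy]
    have e1 : x ^ 2 + y ^ 2 + 2 * (x * y) = (x + y) * (x + y) := by ring
    have e2 : 2 ∣ x ^ 2 + y ^ 2 + 2 * (x * y) := by rw [e1]; exact dvd_mul_of_dvd_left h _
    exact (Nat.dvd_add_left (dvd_mul_right _ _)).1 e2
  have hlpos : 0 < l.length := List.length_pos_iff.2 hl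
  have := gauss_min (B := (b : ℤ)) (M := (m : ℤ)) (s := x) (t := y) (x := (p0 : ℤ) - p2)
    (y := (p1 : ℤ) - p3) (by exact_mod_cast hm0) hmz (by exact_mod_cast hxy) (by positivity)
    (by positivity) (by exact_mod_cast hd) hd3 (by omega)
  have a1 : |(p0 : ℤ) - p2| ≤ p0 + p2 := abs_le.2 ⟨by omega, by omega⟩
  have a2 : |(p1 : ℤ) - p3| ≤ p1 + p3 := abs_le.2 ⟨by omega, by omega⟩
  omega

theorem two_mem (hb : 2 ≤ b) {d : ℕ} (hd : 1 ≤ d) (hmod : b ^ d ≡ 1 [MOD m]) {k : ℕ}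
    (hk : m ∣ b ^ k + 1) : 2 ∈ Out b m := by
  have := out_of_list hb hd hmod [0, k] (by simp) (by simpa [add_comm] using hk)
  simpa using this

theorem even_mem (hb : 2 ≤ b) {d : ℕ} (hd : 1 ≤ d) (hmod : b ^ d ≡ 1 [MOD m]) {k : ℕ}
    (hk : m ∣ b ^ k + 1) {u : ℕ} (hu : 0 < u) (h2 : 2 ∣ u) : u ∈ Out b m := by
  obtain ⟨t, rfl⟩ := h2
  exact out_mul hb hd hmod (two_mem hb hd hmod hk) t (by omega)

/-- if `-1` is a power of `b` mod `m` and `u0 ∈ Out` is odd, everything above is in `Out` -/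
theorem above_odd (hb : 2 ≤ b) {d : ℕ} (hd : 1 ≤ d) (hmod : b ^ d ≡ 1 [MOD m]) {k : ℕ}
    (hk : m ∣ b ^ k + 1) {u0 : ℕ} (h0 : u0 ∈ Out b m) (hodd : ¬ 2 ∣ u0) {u : ℕ}
    (hu : u0 - 2 < u) : u ∈ Out b m := by
  by_cases h2 : 2 ∣ u
  · exact even_mem hb hd hmod hk (by omega) h2
  · rcases Nat.lt_or_ge u0 u with h | h
    · have := out_add hb hd hmod h0 (even_mem hb hd hmod hk (u := u - u0) (by omega) (by omega))
      rwa [Nat.add_sub_cancel' h.le] at this
    · have : u = u0 := by omega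
      rw [this]; exact h0

theorem mem4 (hb : 2 ≤ b) {d : ℕ} (hd : 1 ≤ d) (hmod : b ^ d ≡ 1 [MOD m]) {x y : ℕ}
    (hpos : 0 < x + y) (hdv : m ∣ x + y * b) : x + y ∈ Out b m := by
  have := out_of_list hb hd hmod (List.replicate x 0 ++ List.replicate y 1) (by
    intro h
    have := congrArg List.length h
    simp at this
    omega) (by simpa using hdv)
  simpa using this

end quartic

section cubic

variable {b m : ℕ}

theorem list3 (hm : (m : ℤ) ∣ (b : ℤ) ^ 2 + b + 1) (l : List ℕ) :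
    ∃ p0 p1 p2 : ℕ, p0 + p1 + p2 = l.length ∧
    (m : ℤ) ∣ ((l.map (fun e => b ^ e)).sum : ℕ)
      - (((p0 : ℤ) - p2) + ((p1 : ℤ) - p2) * b) := by
  induction l with
  | nil => exact ⟨0, 0, 0, by simp, by simp⟩
  | cons e l ih =>
    obtain ⟨p0, p1, p2, hp, hdvd⟩ := ih
    have h4 : (m : ℤ) ∣ (b : ℤ) ^ 3 - 1 := hm.trans ⟨(b : ℤ) - 1, by ring⟩
    have hq : ∀ q : ℕ, (m : ℤ) ∣ ((b : ℤ) ^ 3) ^ q - 1 := fun q => by
      have := sub_dvd_pow_sub_pow ((b : ℤ) ^ 3) 1 q
      rw [one_pow] at this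
      exact h4.trans this
    have he : ∃ q r, e = 3 * q + r ∧ r < 3 := ⟨e / 3, e % 3, (Nat.div_add_mod e 3).symm,
      Nat.mod_lt _ (by omega)⟩
    obtain ⟨q, r, rfl, hr⟩ := he
    have hpow : (m : ℤ) ∣ (b : ℤ) ^ (3 * q + r) - (b : ℤ) ^ r := by
      have : (b : ℤ) ^ (3 * q + r) - (b : ℤ) ^ r = (((b : ℤ) ^ 3) ^ q - 1) * (b : ℤ) ^ r := by
        rw [pow_add, pow_mul]; ring
      rw [this]; exact dvd_mul_of_dvd_left (hq q) _
    have key := dvd_add hdvd hpow
    simp only [List.map_cons, List.sum_cons, List.length_cons]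
    generalize (l.map (fun e => b ^ e)).sum = S at key ⊢
    have hcases : r = 0 ∨ r = 1 ∨ r = 2 := by omega
    rcases hcases with rfl | rfl | rfl
    · refine ⟨p0 + 1, p1, p2, by omega, ?_⟩
      have h5 : ((b ^ (3 * q + 0) + S : ℕ) : ℤ)
          - ((((p0 + 1 : ℕ) : ℤ) - p2) + ((p1 : ℤ) - p2) * b)
          = (S : ℤ) - (((p0 : ℤ) - p2) + ((p1 : ℤ) - p2) * b)
            + ((b : ℤ) ^ (3 * q + 0) - (b : ℤ) ^ 0) := by push_cast; ring
      rw [h5]; exact key
    · refine ⟨p0, p1 + 1, p2, by omega, ?_⟩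
      have h5 : ((b ^ (3 * q + 1) + S : ℕ) : ℤ)
          - (((p0 : ℤ) - p2) + (((p1 + 1 : ℕ) : ℤ) - p2) * b)
          = (S : ℤ) - (((p0 : ℤ) - p2) + ((p1 : ℤ) - p2) * b)
            + ((b : ℤ) ^ (3 * q + 1) - (b : ℤ) ^ 1) := by push_cast; ring
      rw [h5]; exact key
    · refine ⟨p0, p1, p2 + 1, by omega, ?_⟩
      have h5 : ((b ^ (3 * q + 2) + S : ℕ) : ℤ)
          - (((p0 : ℤ) - ((p2 + 1 : ℕ) : ℤ)) + ((p1 : ℤ) - ((p2 + 1 : ℕ) : ℤ)) * b)
          = ((S : ℤ) - (((p0 : ℤ) - p2) + ((p1 : ℤ) - p2) * b)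
            + ((b : ℤ) ^ (3 * q + 2) - (b : ℤ) ^ 2)) + ((b : ℤ) ^ 2 + b + 1) := by
        push_cast; ring
      rw [h5]; exact dvd_add key hm

theorem eis_min {B M x y p0 p1 p2 : ℤ} (hM : 0 < M) (hm : M ∣ B ^ 2 + B + 1)
    (hxy : M = x ^ 2 - x * y + y ^ 2) (hx : 0 ≤ x) (hy : 0 ≤ y) (h1 : M ∣ x + y * B)
    (hp0 : 0 ≤ p0) (hp1 : 0 ≤ p1) (hp2 : 0 ≤ p2)
    (h2 : M ∣ (p0 - p2) + (p1 - p2) * B) (h3 : ¬ (3 : ℤ) ∣ x + y) :
    ((3 : ℤ) ∣ (p0 + p1 + p2) - (x + y) → x + y ≤ p0 + p1 + p2) ∧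
    ((3 : ℤ) ∣ (p0 + p1 + p2) + (x + y) → 2 * x - y ≤ p0 + p1 + p2 ∧
      2 * y - x ≤ p0 + p1 + p2) := by
  set X := p0 - p2 with hXdef
  set Y := p1 - p2 with hYdef
  obtain ⟨P, hP⟩ : M ∣ X * x - X * y + Y * y := by
    have : X * x - X * y + Y * y = (X + Y * B) * (x - y) - Y * B * (x + y * B)
      + Y * y * (B ^ 2 + B + 1) := by ring
    rw [this]
    exact dvd_add (dvd_sub (dvd_mul_of_dvd_left h2 _) (dvd_mul_of_dvd_right h1 _))
      (dvd_mul_of_dvd_right hm _)
  obtain ⟨Q, hQ⟩ : M ∣ Y * x - X * y := by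
    have : Y * x - X * y = Y * (x + y * B) - y * (X + Y * B) := by ring
    rw [this]
    exact dvd_sub (dvd_mul_of_dvd_right h1 _) (dvd_mul_of_dvd_right h2 _)
  have hX : X = P * x - Q * y := by
    have : M * X = M * (P * x - Q * y) := by
      calc M * X = x * (X * x - X * y + Y * y) - y * (Y * x - X * y) := by rw [hxy]; ring
        _ = _ := by rw [hP, hQ]; ring
    exact mul_left_cancel₀ hM.ne' this
  have hY : Y = P * y + Q * x - Q * y := by
    have : M * Y = M * (P * y + Q * x - Q * y) := by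
      calc M * Y = y * (X * x - X * y + Y * y) + (x - y) * (Y * x - X * y) := by rw [hxy]; ring
        _ = _ := by rw [hP, hQ]; ring
    exact mul_left_cancel₀ hM.ne' this
  have hN : X ^ 2 - X * Y + Y ^ 2 = M * (P ^ 2 - P * Q + Q ^ 2) := by rw [hX, hY, hxy]; ring
  have hle : X ^ 2 - X * Y + Y ^ 2 ≤ (p0 + p1 + p2) ^ 2 := by
    have : (p0 + p1 + p2) ^ 2 - (X ^ 2 - X * Y + Y ^ 2) = 3 * (p0 * p1 + p1 * p2 + p0 * p2) := by
      rw [hXdef, hYdef]; ring
    have : 0 ≤ p0 * p1 + p1 * p2 + p0 * p2 := by positivity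
    linarith
  have hu0 : 0 ≤ p0 + p1 + p2 := by positivity
  by_cases hbig : 4 ≤ P ^ 2 - P * Q + Q ^ 2
  · have h4 : 4 * M ≤ (p0 + p1 + p2) ^ 2 := by nlinarith
    have k1 : (x + y) ^ 2 ≤ (p0 + p1 + p2) ^ 2 := by nlinarith [sq_nonneg (x - y)]
    have k2 : (2 * x - y) ^ 2 ≤ (p0 + p1 + p2) ^ 2 := by nlinarith [sq_nonneg y]
    have k3 : (2 * y - x) ^ 2 ≤ (p0 + p1 + p2) ^ 2 := by nlinarith [sq_nonneg x]
    exact ⟨fun _ => (abs_le_of_sq_le_sq' k1 hu0).2,
      fun _ => ⟨(abs_le_of_sq_le_sq' k2 hu0).2, (abs_le_of_sq_le_sq' k3 hu0).2⟩⟩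
  · have hs : P ^ 2 - P * Q + Q ^ 2 ≤ 3 := by omega
    have e1 : 3 * P ^ 2 ≤ 12 := by nlinarith [sq_nonneg (P - 2 * Q)]
    have e2 : 3 * Q ^ 2 ≤ 12 := by nlinarith [sq_nonneg (2 * P - Q)]
    have f1 : -2 ≤ P ∧ P ≤ 2 := by constructor <;> nlinarith
    have f2 : -2 ≤ Q ∧ Q ≤ 2 := by constructor <;> nlinarith
    have g1 : P = -2 ∨ P = -1 ∨ P = 0 ∨ P = 1 ∨ P = 2 := by omega
    have g2 : Q = -2 ∨ Q = -1 ∨ Q = 0 ∨ Q = 1 ∨ Q = 2 := by omega
    rcases g1 with rfl | rfl | rfl | rfl | rfl <;>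
    rcases g2 with rfl | rfl | rfl | rfl | rfl <;>
      first
      | (exfalso; norm_num at hs; done)
      | (constructor <;> intro hh <;> omega)

end cubic

section cubic2

variable {b m : ℕ}

theorem cube_mod (hb : 2 ≤ b) (hm : m ∣ b ^ 2 + b + 1) : b ^ 3 ≡ 1 [MOD m] := by
  have h1 : m ∣ b ^ 3 - 1 := by
    have : b ^ 3 - 1 = (b - 1) * (b ^ 2 + b + 1) := by
      obtain ⟨c, rfl⟩ : ∃ c, b = c + 1 := ⟨b - 1, by omega⟩
      have : (c + 1) ^ 3 = (c + 1 - 1) * ((c + 1) ^ 2 + (c + 1) + 1) + 1 := by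
        rw [Nat.add_sub_cancel]; ring
      omega
    rw [this]; exact dvd_mul_of_dvd_right hm _
  exact ((Nat.modEq_iff_dvd' (Nat.one_le_pow _ _ (by omega))).2 h1).symm

theorem lower3 (hb : 2 ≤ b) (hm0 : 0 < m) (hm : m ∣ b ^ 2 + b + 1) {x y : ℕ}
    (hxy : m + x * y = x ^ 2 + y ^ 2) (hd : m ∣ x + y * b) (h3 : ¬ 3 ∣ x + y) {u : ℕ}
    (hu : u + 3 = max (x + y) (max (2 * x - y) (2 * y - x))) : u ∉ Out b m := by
  intro hmem
  obtain ⟨l, hl, hlen, hdvd⟩ := list_of_out hb hmem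
  have hmz : (m : ℤ) ∣ (b : ℤ) ^ 2 + b + 1 := by exact_mod_cast hm
  obtain ⟨p0, p1, p2, hp, hd2⟩ := list3 hmz l
  have hd3 : (m : ℤ) ∣ ((p0 : ℤ) - p2) + ((p1 : ℤ) - p2) * b := by
    have h1 : (m : ℤ) ∣ ((l.map (fun e => b ^ e)).sum : ℕ) := by exact_mod_cast hdvd
    have := dvd_sub h1 hd2
    simpa using this
  have hxyz : (m : ℤ) = (x : ℤ) ^ 2 - x * y + (y : ℤ) ^ 2 := by
    have : (m : ℤ) + x * y = (x : ℤ) ^ 2 + (y : ℤ) ^ 2 := by exact_mod_cast hxy
    linarith
  obtain ⟨k1, k2⟩ := eis_min (B := (b : ℤ)) (M := (m : ℤ)) (x := x) (y := y) (p0 := (p0 : ℤ))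
    (p1 := (p1 : ℤ)) (p2 := (p2 : ℤ)) (by exact_mod_cast hm0) hmz hxyz (by positivity)
    (by positivity) (by exact_mod_cast hd) (by positivity) (by positivity) (by positivity) hd3
    (by omega)
  have hsum : (p0 : ℤ) + p1 + p2 = u := by
    have : p0 + p1 + p2 = u := by omega
    exact_mod_cast this
  rw [hsum] at k1 k2
  rcases max_cases (x + y) (max (2 * x - y) (2 * y - x)) with ⟨e, _⟩ | ⟨e, _⟩
  · rw [e] at hu
    have := k1 (by omega)
    omega
  · rw [e] at hu
    rcases max_cases (2 * x - y) (2 * y - x) with ⟨e', _⟩ | ⟨e', _⟩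
    · rw [e'] at hu
      have := (k2 (by omega)).1
      omega
    · rw [e'] at hu
      have := (k2 (by omega)).2
      omega

theorem upper3 (hb : 2 ≤ b) (hco : Nat.Coprime (b - 1) m) (hm : m ∣ b ^ 2 + b + 1) {x y : ℕ}
    (hd : m ∣ x + y * b) (h3 : ¬ 3 ∣ x + y) {u : ℕ} (hu0 : 0 < u)
    (hu : max (x + y) (max (2 * x - y) (2 * y - x)) < u + 3) : u ∈ Out b m := by
  have hmod := cube_mod hb hm
  have h3mem : 3 ∈ Out b m := out_order hb (by norm_num) hmod hco
  have hadd : ∀ w t : ℕ, w ∈ Out b m → w + 3 * t ∈ Out b m := by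
    intro w t hw
    rcases Nat.eq_zero_or_pos t with h | h
    · subst h; simpa using hw
    · exact out_add hb (by norm_num) hmod hw (out_mul hb (by norm_num) hmod h3mem t h)
  have m1 : x + y < u + 3 := lt_of_le_of_lt (le_max_left _ _) hu
  have m2 : 2 * x - y < u + 3 :=
    lt_of_le_of_lt ((le_max_left _ _).trans (le_max_right _ _)) hu
  have m3 : 2 * y - x < u + 3 :=
    lt_of_le_of_lt ((le_max_right _ _).trans (le_max_right _ _)) hu
  have hcase : u % 3 = 0 ∨ u % 3 = (x + y) % 3 ∨ (u + (x + y)) % 3 = 0 := by omega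
  rcases hcase with h | h | h
  · have := out_mul hb (by norm_num) hmod h3mem (u / 3) (by omega)
    have e : 3 * (u / 3) = u := by omega
    rwa [e] at this
  · have hw : x + y ∈ Out b m := mem4 hb (by norm_num : 1 ≤ 3) hmod (by omega) hd
    have := hadd _ ((u - (x + y)) / 3) hw
    have e : x + y + 3 * ((u - (x + y)) / 3) = u := by omega
    rwa [e] at this
  · rcases Nat.le_total y x with hyx | hyx
    · have hw : 2 * x - y ∈ Out b m := by
        have hsum : ((List.replicate (x - y) 1 ++ List.replicate x 2).map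
            (fun e => b ^ e)).sum = (x - y) * b + x * b ^ 2 := by
          simp
        have hdv : m ∣ (x - y) * b + x * b ^ 2 := by
          have e1 : ((x - y) * b + x * b ^ 2) + (x + y * b) = x * (b ^ 2 + b + 1) := by
            obtain ⟨c, rfl⟩ : ∃ c, x = c + y := ⟨x - y, by omega⟩
            rw [Nat.add_sub_cancel]; ring
          have e2 : m ∣ ((x - y) * b + x * b ^ 2) + (x + y * b) := by
            rw [e1]; exact dvd_mul_of_dvd_right hm _
          exact (Nat.dvd_add_left hd).1 e2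
        have := out_of_list hb (by norm_num : 1 ≤ 3) hmod
          (List.replicate (x - y) 1 ++ List.replicate x 2) (by
            intro h
            have := congrArg List.length h
            simp at this
            omega) (by rw [hsum]; exact hdv)
        have hlen : (List.replicate (x - y) 1 ++ List.replicate x 2).length = 2 * x - y := by
          simp; omega
        rwa [hlen] at this
      have := hadd _ ((u - (2 * x - y)) / 3) hw
      have e : 2 * x - y + 3 * ((u - (2 * x - y)) / 3) = u := by omega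
      rwa [e] at this
    · have hw : 2 * y - x ∈ Out b m := by
        have hsum : ((List.replicate (y - x) 0 ++ List.replicate y 2).map
            (fun e => b ^ e)).sum = (y - x) + y * b ^ 2 := by
          simp
        have hdv : m ∣ (y - x) + y * b ^ 2 := by
          have e1 : ((y - x) + y * b ^ 2) + (x + y * b) = y * (b ^ 2 + b + 1) := by
            obtain ⟨c, rfl⟩ : ∃ c, y = c + x := ⟨y - x, by omega⟩
            rw [Nat.add_sub_cancel]; ring
          have e2 : m ∣ ((y - x) + y * b ^ 2) + (x + y * b) := by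
            rw [e1]; exact dvd_mul_of_dvd_right hm _
          exact (Nat.dvd_add_left hd).1 e2
        have := out_of_list hb (by norm_num : 1 ≤ 3) hmod
          (List.replicate (y - x) 0 ++ List.replicate y 2) (by
            intro h
            have := congrArg List.length h
            simp at this
            omega) (by rw [hsum]; exact hdv)
        have hlen : (List.replicate (y - x) 0 ++ List.replicate y 2).length = 2 * y - x := by
          simp; omega
        rwa [hlen] at this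
      have := hadd _ ((u - (2 * y - x)) / 3) hw
      have e : 2 * y - x + 3 * ((u - (2 * y - x)) / 3) = u := by omega
      rwa [e] at this

end cubic2

theorem F_eq {b n v : ℕ} (hv : 0 < v) (h1 : v ∉ Out b n) (h2 : ∀ u, v < u → u ∈ Out b n) :
    F b n = v := by
  apply IsGreatest.csSup_eq
  refine ⟨⟨hv, h1⟩, ?_⟩
  rintro u ⟨_, hu⟩
  by_contra hcon
  exact hu (h2 u (by omega))

theorem one_notMem {b m : ℕ} (hb : 2 ≤ b) (hm : 1 < m) (hco : Nat.Coprime m b) :
    1 ∉ Out b m := by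
  intro h
  obtain ⟨l, _, hlen, hdvd⟩ := list_of_out hb h
  obtain ⟨e, rfl⟩ := List.length_eq_one_iff.1 hlen
  have h1 : m ∣ b ^ e := by simpa using hdvd
  have h2 : m ∣ 1 := by
    have := (hco.pow_right e)
    exact (Nat.Coprime.dvd_of_dvd_mul_left this (by simpa using h1))
  have := Nat.le_of_dvd one_pos h2
  omega

/-- The facts used by all the results; `m` is the largest divisor of `n` coprime to `b`. -/
theorem setup {b n m : ℕ} (h : Admissible b n) (hmn : m ∣ n) (hco : Nat.Coprime m b)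
    (hk : ∃ k, n ∣ m * b ^ k) : 2 ≤ b ∧ Out b n = Out b m ∧ Nat.Coprime (b - 1) m ∧ 3 ≤ m ∧
    ¬ 2 ∣ m ∧ 1 ≤ Nat.totient m ∧ b ^ Nat.totient m ≡ 1 [MOD m] ∧ 1 ∉ Out b m ∧
    (∀ u, m - 2 < u → u ∈ Out b m) ∧
    IsGreatest {u : ℕ | 0 < u ∧ u ∉ Out b n} (F b n) := by
  obtain ⟨hb, hn, hcn, p, hp, hpn, hpb⟩ := h
  obtain ⟨k0, hk0⟩ := hk
  have hred : Out b n = Out b m := out_reduce hb hmn hk0
  have hF : F b n = F b m := by unfold F; rw [hred]
  have hcm : Nat.Coprime (b - 1) m := Nat.Coprime.coprime_dvd_right hmn hcn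
  have hm0 : 0 < m := Nat.pos_of_dvd_of_pos hmn (by omega)
  have hpm : p ∣ m := by
    have h1 : p ∣ m * b ^ k0 := hpn.trans hk0
    rcases hp.dvd_mul.1 h1 with h2 | h2
    · exact h2
    · exact absurd (hp.dvd_of_dvd_pow h2) hpb
  have hm1 : 1 < m := lt_of_lt_of_le hp.one_lt (Nat.le_of_dvd hm0 hpm)
  have hodd : ¬ 2 ∣ m := by
    intro h2
    have hb2 : ¬ 2 ∣ b := fun h3 => by
      have := Nat.dvd_gcd h2 h3
      rw [hco] at this
      omega
    have : 2 ∣ Nat.gcd (b - 1) m := Nat.dvd_gcd (by omega) h2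
    rw [hcm] at this
    omega
  have hm3 : 3 ≤ m := by omega
  have hD1 : 1 ≤ Nat.totient m := Nat.totient_pos.2 hm0
  have hDmod : b ^ Nat.totient m ≡ 1 [MOD m] := Nat.ModEq.pow_totient hco.symm
  have h1out : 1 ∉ Out b m := one_notMem hb hm1 hco
  have hupp : ∀ u, m - 2 < u → u ∈ Out b m := fun u hu =>
    upper_lin hb hD1 hDmod hm1 hcm (by omega) (Or.inl (by omega))
  have hbdd : BddAbove {u : ℕ | 0 < u ∧ u ∉ Out b m} := ⟨m - 2, by
    rintro u ⟨_, hu⟩
    by_contra hcon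
    exact hu (hupp u (by omega))⟩
  have hne : {u : ℕ | 0 < u ∧ u ∉ Out b m}.Nonempty := ⟨1, one_pos, h1out⟩
  have hgr : IsGreatest {u : ℕ | 0 < u ∧ u ∉ Out b m} (F b m) :=
    ⟨Nat.sSup_mem hne hbdd, fun u hu => le_csSup hbdd hu⟩
  refine ⟨hb, hred, hcm, hm3, hodd, hD1, hDmod, h1out, hupp, ?_⟩
  rw [hF, hred]
  exact hgr

end H13.DigitFrob
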