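import Pool.Agent.H13.DigitFrob.Basic

namespace H13.DigitFrob

/-- every nonzero class mod a prime `p ≥ 7` is a sum of two nonzero squares -/
theorem two_squares {p : ℕ} [Fact p.Prime] (hp : 7 ≤ p) {t : ZMod p} (ht : t ≠ 0) :
    ∃ x y : ZMod p, x ≠ 0 ∧ y ≠ 0 ∧ t = x ^ 2 + y ^ 2 := by
  by_cases hs : ∃ s : ZMod p, t = s ^ 2
  · obtain ⟨s, rfl⟩ := hs
    have hs0 : s ≠ 0 := by rintro rfl; simp at ht
    have nz : ∀ k : ℕ, 0 < k → k < 7 → ((k : ℕ) : ZMod p) ≠ 0 := by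
      intro k hk hk7 h
      rw [ZMod.natCast_eq_zero_iff] at h
      have := Nat.le_of_dvd hk h
      omega
    have h3 : (3 : ZMod p) ≠ 0 := by exact_mod_cast nz 3 (by norm_num) (by norm_num)
    have h4 : (4 : ZMod p) ≠ 0 := by exact_mod_cast nz 4 (by norm_num) (by norm_num)
    have h5 : (5 : ZMod p) ≠ 0 := by exact_mod_cast nz 5 (by norm_num) (by norm_num)
    refine ⟨3 * s / 5, 4 * s / 5, div_ne_zero (mul_ne_zero h3 hs0) h5,
      div_ne_zero (mul_ne_zero h4 hs0) h5, ?_⟩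
    field_simp
    ring
  · obtain ⟨x, y, hxy⟩ := ZMod.sq_add_sq p t
    refine ⟨x, y, ?_, ?_, hxy.symm⟩
    · rintro rfl
      exact hs ⟨y, by rw [← hxy]; ring⟩
    · rintro rfl
      exact hs ⟨x, by rw [← hxy]; ring⟩

theorem all_from_345 {b m d : ℕ} (hb : 2 ≤ b) (hd : 1 ≤ d) (hmod : b ^ d ≡ 1 [MOD m])
    (h3 : 3 ∈ Out b m) (h4 : 4 ∈ Out b m) (h5 : 5 ∈ Out b m) {u : ℕ} (hu : 3 ≤ u) :
    u ∈ Out b m := by
  have hadd : ∀ w t : ℕ, w ∈ Out b m → w + 3 * t ∈ Out b m := by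
    intro w t hw
    rcases Nat.eq_zero_or_pos t with h | h
    · subst h; simpa using hw
    · exact out_add hb hd hmod hw (out_mul hb hd hmod h3 t h)
  have hc : u % 3 = 0 ∨ u % 3 = 1 ∨ u % 3 = 2 := by omega
  rcases hc with h | h | h
  · have := hadd 3 ((u - 3) / 3) h3
    have e : 3 + 3 * ((u - 3) / 3) = u := by omega
    rwa [e] at this
  · have := hadd 4 ((u - 4) / 3) h4
    have e : 4 + 3 * ((u - 4) / 3) = u := by omega
    rwa [e] at this
  · have := hadd 5 ((u - 5) / 3) h5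
    have e : 5 + 3 * ((u - 5) / 3) = u := by omega
    rwa [e] at this

/-- a list of nonzero squares mod `m` with sum zero gives an element of `Out` -/
theorem out_of_squares {b m d : ℕ} (hb : 2 ≤ b) (hd : 1 ≤ d) (hmod : b ^ d ≡ 1 [MOD m])
    (hsq : ∀ x : ZMod m, x ≠ 0 → ∃ e : ℕ, (b : ZMod m) ^ e = x ^ 2) (l : List (ZMod m))
    (hl : l ≠ []) (hne : ∀ x ∈ l, x ≠ 0) (hsum : (l.map (fun x => x ^ 2)).sum = 0) :
    l.length ∈ Out b m := by
  have key : ∀ l : List (ZMod m), (∀ x ∈ l, x ≠ 0) → ∃ l' : List ℕ, l'.length = l.length ∧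
      (((l'.map (fun e => b ^ e)).sum : ℕ) : ZMod m) = (l.map (fun x => x ^ 2)).sum := by
    intro l
    induction l with
    | nil => intro _; exact ⟨[], by simp, by simp⟩
    | cons a l ih =>
      intro h
      obtain ⟨l', h1, h2⟩ := ih (fun x hx => h x (List.mem_cons_of_mem _ hx))
      obtain ⟨e, he⟩ := hsq a (h a List.mem_cons_self)
      refine ⟨e :: l', by simp [h1], ?_⟩
      rw [List.map_cons, List.sum_cons, List.map_cons, List.sum_cons, Nat.cast_add, h2]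
      push_cast
      rw [he]
  obtain ⟨l', h1, h2⟩ := key l hne
  rw [hsum, ZMod.natCast_eq_zero_iff] at h2
  have := out_of_list hb hd hmod l' (by
    intro h; apply hl; rw [h] at h1; exact List.length_eq_zero_iff.1 h1.symm) h2
  rwa [h1] at this

end H13.DigitFrob
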