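import Pool.Agent.H13.DigitFrob.Basic

namespace Pool.Agent.Results.MP_d7e141_nt.PowerPlusOne

open H13.DigitFrob

/-- `F(b,n) = b - 1` when the largest divisor of `n` coprime to `b` is `b^k + 1`. -/
theorem result (b n k : ℕ) (h : Admissible b n) (hk1 : 1 ≤ k) (hmn : b ^ k + 1 ∣ n)
    (hk : ∃ j, n ∣ (b ^ k + 1) * b ^ j) :
    IsGreatest {u : ℕ | 0 < u ∧ u ∉ Out b n} (F b n) ∧ F b n = b - 1 := by
  obtain ⟨m, hmk⟩ : ∃ m, m = b ^ k + 1 := ⟨_, rfl⟩
  rw [← hmk] at hmn hk
  have hco : Nat.Coprime m b := by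
    have h1 : Nat.Coprime (b ^ k + 1) (b ^ k) := by simp
    rw [hmk]
    exact Nat.Coprime.coprime_dvd_right (dvd_pow_self b (by omega)) h1
  obtain ⟨hb, hred, hcm, hm3, hodd, hD1, hDmod, h1out, hupp, hgr⟩ := setup h hmn hco hk
  have hF : F b n = F b m := by unfold F; rw [hred]
  have hm0 : 0 < m := by omega
  have hm1 : 1 < m := by omega
  have hle : ∀ v, (∀ u, v < u → u ∈ Out b m) → F b n ≤ v := by
    intro v hv
    by_contra hcon
    have := hgr.1.2
    rw [hred] at this
    exact this (hv _ (by omega))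
  refine ⟨hgr, ?_⟩
  have hbev : ¬ 2 ∣ b - 1 := by
    intro h2
    apply hodd
    rw [hmk]
    have hbo : Odd b := by rw [Nat.odd_iff]; omega
    have := hbo.pow (n := k)
    rw [Nat.odd_iff] at this
    omega
  have hkd : m ∣ b ^ k + 1 := by rw [hmk]
  have h2 : b + 1 ∈ Out b m := by
    have := out_step hb hD1 hDmod (two_mem hb hD1 hDmod hkd)
    have e : 2 + (b - 1) = b + 1 := by omega
    rwa [e] at this
  rw [hF]
  apply F_eq (by omega)
  · rintro ⟨N, hN, hdvd, hs⟩
    rw [hmk] at hdvd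
    have := plus_one_mult hb hk1 N hN hdvd (by omega)
    rw [hs] at this
    exact hbev this
  · intro u hu
    exact above_odd hb hD1 hDmod hkd h2 (by omega) (by omega)

end Pool.Agent.Results.MP_d7e141_nt.PowerPlusOne
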