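import Mathlib

/-!
# Thue's lemma and the representations of `m` by the norm forms of degree two
-/

namespace H13.DigitFrob

theorem thue (m b : ℕ) (hm : 0 < m) : ∃ X Y : ℤ, (X ≠ 0 ∨ Y ≠ 0) ∧ X ^ 2 ≤ m ∧ Y ^ 2 ≤ m ∧
    (m : ℤ) ∣ X + Y * b := by
  obtain ⟨q, hq⟩ : ∃ q, q = Nat.sqrt m := ⟨_, rfl⟩
  have hq1 : m < (q + 1) * (q + 1) := by rw [hq]; exact Nat.lt_succ_sqrt m
  have hq2 : q * q ≤ m := by rw [hq]; exact Nat.sqrt_le m
  have hcard : (Finset.range m).card <
      ((Finset.range (q + 1)) ×ˢ (Finset.range (q + 1))).card := by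
    rw [Finset.card_product, Finset.card_range, Finset.card_range]; exact hq1
  obtain ⟨⟨i, j⟩, h1, ⟨i', j'⟩, h2, hne, heq⟩ :=
    Finset.exists_ne_map_eq_of_card_lt_of_maps_to hcard
      (f := fun p : ℕ × ℕ => (p.1 + p.2 * b) % m)
      (by intro p _; simp [Nat.mod_lt _ hm])
  simp only [Finset.mem_product, Finset.mem_range] at h1 h2
  have hsq : ∀ a c : ℕ, a < q + 1 → c < q + 1 → ((a : ℤ) - c) ^ 2 ≤ m := by
    intro a c ha hc
    have e1 : |(a : ℤ) - c| ≤ q := abs_le.2 ⟨by omega, by omega⟩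
    have e2 : ((a : ℤ) - c) ^ 2 ≤ (q : ℤ) ^ 2 := sq_le_sq' (by linarith [(abs_le.1 e1).1])
      ((abs_le.1 e1).2)
    have e3 : (q : ℤ) ^ 2 ≤ m := by rw [pow_two]; exact_mod_cast hq2
    linarith
  refine ⟨(i : ℤ) - i', (j : ℤ) - j', ?_, hsq _ _ h1.1 h2.1, hsq _ _ h1.2 h2.2, ?_⟩
  · by_contra hcon
    push Not at hcon
    apply hne
    have e1 : i = i' := by omega
    have e2 : j = j' := by omega
    rw [e1, e2]
  · have h3 : (i' + j' * b) ≡ (i + j * b) [MOD m] := heq.symm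
    have h4 := (Nat.modEq_iff_dvd).1 h3
    push_cast at h4
    have h5 : (i : ℤ) - i' + ((j : ℤ) - j') * b = i + j * b - (i' + j' * b) := by ring
    rw [h5]; exact h4

theorem rep4 {m b : ℕ} (hm : m ∣ b ^ 2 + 1) (hodd : ¬ 2 ∣ m) (hm3 : 3 ≤ m) :
    ∃ x y : ℕ, m = x ^ 2 + y ^ 2 ∧ m ∣ x + y * b := by
  obtain ⟨X, Y, hne, hX, hY, hd⟩ := thue m b (by omega)
  have hmz : (m : ℤ) ∣ (b : ℤ) ^ 2 + 1 := by exact_mod_cast hm
  have hm0 : (0 : ℤ) < m := by exact_mod_cast (by omega : 0 < m)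
  obtain ⟨c, hc⟩ : (m : ℤ) ∣ X ^ 2 + Y ^ 2 := by
    have : X ^ 2 + Y ^ 2 = (X + Y * b) * (X - Y * b) + Y ^ 2 * ((b : ℤ) ^ 2 + 1) := by ring
    rw [this]
    exact dvd_add (dvd_mul_of_dvd_left hd _) (dvd_mul_of_dvd_right hmz _)
  have hpos : 0 < X ^ 2 + Y ^ 2 := by
    rcases hne with h | h
    · have := sq_pos_of_ne_zero h; nlinarith [sq_nonneg Y]
    · have := sq_pos_of_ne_zero h; nlinarith [sq_nonneg X]
  have hc1 : 0 < c := by
    rw [hc] at hpos
    exact (mul_pos_iff_of_pos_left hm0).1 hpos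
  have hc2 : c ≤ 2 := by
    by_contra hcon
    have : 3 ≤ c := by omega
    nlinarith
  have hN : (m : ℤ) = X ^ 2 + Y ^ 2 := by
    have hcc : c = 1 ∨ c = 2 := by omega
    rcases hcc with rfl | rfl
    · linarith
    · exfalso
      have e1 : X ^ 2 = m := by linarith
      have e2 : Y ^ 2 = m := by linarith
      have hX0 : X ≠ 0 := by rintro rfl; simp at e1; omega
      have key : ∀ Z : ℤ, X ∣ (1 : ℤ) + Z * b → Z ^ 2 = 1 → False := by
        intro Z hZ hZ1
        have k1 : X ∣ (b : ℤ) ^ 2 + 1 := by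
          have : X ∣ (m : ℤ) := by rw [← e1, pow_two]; exact dvd_mul_right _ _
          exact this.trans hmz
        have k2 : X ∣ 2 := by
          have : (2 : ℤ) = ((b : ℤ) ^ 2 + 1) + (1 + Z * b) * (1 - Z * b) := by
            have : (1 + Z * b) * (1 - Z * b) = 1 - Z ^ 2 * (b : ℤ) ^ 2 := by ring
            rw [this, hZ1]; ring
          rw [this]
          exact dvd_add k1 (dvd_mul_of_dvd_left hZ _)
        have k3 : |X| ≤ 2 := by
          have := Int.le_of_dvd (by norm_num) ((abs_dvd X 2).2 k2)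
          exact this
        have k4 := abs_le.1 k3
        have k5 : X = -2 ∨ X = -1 ∨ X = 0 ∨ X = 1 ∨ X = 2 := by omega
        rcases k5 with rfl | rfl | rfl | rfl | rfl <;> norm_num at e1 <;> omega
      have e3 : (Y - X) * (Y + X) = 0 := by
        have : (Y - X) * (Y + X) = Y ^ 2 - X ^ 2 := by ring
        rw [this, e1, e2]; ring
      rcases mul_eq_zero.1 e3 with h | h
      · have hYX : Y = X := by linarith
        rw [hYX, ← e1] at hd
        have : X * X ∣ X * (1 + 1 * b) := by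
          have e : X * (1 + 1 * b) = X + X * b := by ring
          rw [e, ← pow_two]; exact hd
        exact key 1 ((mul_dvd_mul_iff_left hX0).1 this) (by norm_num)
      · have hYX : Y = -X := by linarith
        rw [hYX, ← e1] at hd
        have : X * X ∣ X * (1 + (-1) * b) := by
          have e : X * (1 + (-1) * b) = X + -X * b := by ring
          rw [e, ← pow_two]; exact hd
        exact key (-1) ((mul_dvd_mul_iff_left hX0).1 this) (by norm_num)
  have fin : ∀ x y : ℤ, 0 ≤ x → 0 ≤ y → (m : ℤ) = x ^ 2 + y ^ 2 → (m : ℤ) ∣ x + y * b →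
      ∃ x y : ℕ, m = x ^ 2 + y ^ 2 ∧ m ∣ x + y * b := by
    intro x y hx hy h1 h2
    lift x to ℕ using hx
    lift y to ℕ using hy
    exact ⟨x, y, by exact_mod_cast h1, by exact_mod_cast h2⟩
  have hrot : (m : ℤ) ∣ -Y + X * b := by
    have : -Y + X * b = b * (X + Y * b) - Y * ((b : ℤ) ^ 2 + 1) := by ring
    rw [this]
    exact dvd_sub (dvd_mul_of_dvd_right hd _) (dvd_mul_of_dvd_right hmz _)
  rcases le_total 0 X with hx | hx <;> rcases le_total 0 Y with hy | hy
  · exact fin X Y hx hy hN hd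
  · exact fin (-Y) X (by linarith) hx (by rw [hN]; ring) hrot
  · refine fin Y (-X) hy (by linarith) (by rw [hN]; ring) ?_
    have : Y + -X * b = -(-Y + X * b) := by ring
    rw [this]; exact (dvd_neg).2 hrot
  · refine fin (-X) (-Y) (by linarith) (by linarith) (by rw [hN]; ring) ?_
    have : -X + -Y * b = -(X + Y * b) := by ring
    rw [this]; exact (dvd_neg).2 hd

theorem rep3 {m b : ℕ} (hb : 1 ≤ b) (hm : m ∣ b ^ 2 + b + 1) (hco : Nat.Coprime (b - 1) m)
    (hodd : ¬ 2 ∣ m) (hm3 : 3 ≤ m) :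
    ∃ x y : ℕ, m + x * y = x ^ 2 + y ^ 2 ∧ m ∣ x + y * b := by
  obtain ⟨X, Y, hne, hX, hY, hd⟩ := thue m b (by omega)
  have hmz : (m : ℤ) ∣ (b : ℤ) ^ 2 + b + 1 := by exact_mod_cast hm
  have hm0 : (0 : ℤ) < m := by exact_mod_cast (by omega : 0 < m)
  obtain ⟨c, hc⟩ : (m : ℤ) ∣ X ^ 2 - X * Y + Y ^ 2 := by
    have : X ^ 2 - X * Y + Y ^ 2 = (X + Y * b) * (X - Y - Y * b)
        + Y ^ 2 * ((b : ℤ) ^ 2 + b + 1) := by ring
    rw [this]
    exact dvd_add (dvd_mul_of_dvd_left hd _) (dvd_mul_of_dvd_right hmz _)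
  have hpos : 0 < X ^ 2 - X * Y + Y ^ 2 := by
    rcases hne with h | h
    · have := sq_pos_of_ne_zero h; nlinarith [sq_nonneg (X - 2 * Y)]
    · have := sq_pos_of_ne_zero h; nlinarith [sq_nonneg (2 * X - Y)]
  have hc1 : 0 < c := by
    rw [hc] at hpos
    exact (mul_pos_iff_of_pos_left hm0).1 hpos
  have hXY : -(X * Y) ≤ m := by nlinarith [sq_nonneg (X + Y)]
  have hc2 : c ≤ 3 := by
    by_contra hcon
    have : 4 ≤ c := by omega
    nlinarith
  have hN : (m : ℤ) = X ^ 2 - X * Y + Y ^ 2 := by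
    have hcc : c = 1 ∨ c = 2 ∨ c = 3 := by omega
    rcases hcc with rfl | rfl | rfl
    · linarith
    · exfalso
      apply hodd
      have hz : (2 : ℤ) ∣ m := by
        obtain ⟨a, r, rfl, hr⟩ : ∃ a r : ℤ, X = 2 * a + r ∧ (r = 0 ∨ r = 1) :=
          ⟨X / 2, X % 2, by omega, by omega⟩
        obtain ⟨a', r', rfl, hr'⟩ : ∃ a r : ℤ, Y = 2 * a + r ∧ (r = 0 ∨ r = 1) :=
          ⟨Y / 2, Y % 2, by omega, by omega⟩
        rcases hr with rfl | rfl <;> rcases hr' with rfl | rfl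
        · exact ⟨a ^ 2 - a * a' + a' ^ 2, by linarith⟩
        · exfalso
          have : (2 : ℤ) * (2 * a ^ 2 - 2 * a * a' - a + 2 * a' ^ 2 + 2 * a') + 1 = 2 * m := by
            linarith
          omega
        · exfalso
          have : (2 : ℤ) * (2 * a ^ 2 + 2 * a - 2 * a * a' - a' + 2 * a' ^ 2) + 1 = 2 * m := by
            linarith
          omega
        · exfalso
          have : (2 : ℤ) * (2 * a ^ 2 + 2 * a - 2 * a * a' - a' - a + 2 * a' ^ 2 + 2 * a') + 1
              = 2 * m := by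
            linarith
          omega
      exact_mod_cast hz
    · exfalso
      have e1 : X ^ 2 = m := by linarith
      have e3 : (X + Y) ^ 2 = 0 := by nlinarith
      have hYX : Y = -X := by
        have := pow_eq_zero_iff (two_ne_zero) |>.1 e3
        linarith
      have hX0 : X ≠ 0 := by rintro rfl; simp at e1; omega
      rw [hYX, ← e1] at hd
      have h1 : X * X ∣ X * (1 - b) := by
        have e : X * (1 - b) = X + -X * b := by ring
        rw [e, ← pow_two]; exact hd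
      have h2 : X ∣ 1 - (b : ℤ) := (mul_dvd_mul_iff_left hX0).1 h1
      have h3 : X ∣ (m : ℤ) := by rw [← e1, pow_two]; exact dvd_mul_right _ _
      have h4 : X.natAbs ∣ b - 1 := by
        have : X ∣ ((b - 1 : ℕ) : ℤ) := by
          rw [Nat.cast_sub hb]
          have e : ((b : ℕ) : ℤ) - ((1 : ℕ) : ℤ) = -(1 - (b : ℤ)) := by push_cast; ring
          rw [e]; exact (dvd_neg).2 h2
        exact Int.natAbs_dvd_natAbs.2 this
      have h5 : X.natAbs ∣ m := Int.natAbs_dvd_natAbs.2 h3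
      have h6 : X.natAbs ∣ 1 := by
        have := Nat.dvd_gcd h4 h5
        rwa [hco] at this
      have h7 : X.natAbs = 1 := Nat.dvd_one.1 h6
      have h8 : X ^ 2 = 1 := by
        rw [← Int.natAbs_sq, h7]; norm_num
      omega
  have fin : ∀ x y : ℤ, 0 ≤ x → 0 ≤ y → (m : ℤ) = x ^ 2 - x * y + y ^ 2 →
      (m : ℤ) ∣ x + y * b → ∃ x y : ℕ, m + x * y = x ^ 2 + y ^ 2 ∧ m ∣ x + y * b := by
    intro x y hx hy h1 h2
    lift x to ℕ using hx
    lift y to ℕ using hy
    refine ⟨x, y, ?_, by exact_mod_cast h2⟩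
    have : (m : ℤ) + x * y = (x : ℤ) ^ 2 + (y : ℤ) ^ 2 := by linarith
    exact_mod_cast this
  have hrot : (m : ℤ) ∣ -Y + (X - Y) * b := by
    have : -Y + (X - Y) * b = b * (X + Y * b) - Y * ((b : ℤ) ^ 2 + b + 1) := by ring
    rw [this]
    exact dvd_sub (dvd_mul_of_dvd_right hd _) (dvd_mul_of_dvd_right hmz _)
  rcases le_total 0 X with hx | hx <;> rcases le_total 0 Y with hy | hy
  · exact fin X Y hx hy hN hd
  · exact fin (-Y) (X - Y) (by linarith) (by linarith) (by rw [hN]; ring) hrot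
  · refine fin Y (Y - X) hy (by linarith) (by rw [hN]; ring) ?_
    have : Y + (Y - X) * b = -(-Y + (X - Y) * b) := by ring
    rw [this]; exact (dvd_neg).2 hrot
  · refine fin (-X) (-Y) (by linarith) (by linarith) (by rw [hN]; ring) ?_
    have : -X + -Y * b = -(X + Y * b) := by ring
    rw [this]; exact (dvd_neg).2 hd

end H13.DigitFrob
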